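import Mathlib
import Pool.Agent.Work.MP_74738e_an.Pos.All

/-!
# MP_74738e_an: for which `α` a generic `T ∈ 𝓛_α` has upper metric mean dimension `(1 - α) dim X`
-/

namespace Pool.Agent.Results.MP_74738e_an.Threshold

open Pool.MP74738e
open Filter Topology Set Metric MeasureTheory Module Manifold Bundle
open scoped ENNReal NNReal ContDiff Manifold

/-- For every compact smooth manifold `M` of dimension `d = finrank ℝ E ≥ 2`, with a distance
bi-Lipschitz equivalent to a Riemannian distance, every smooth embedding `Φ` of `M` in `ℝ^N` and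
every `α ∈ (0, 1)`: `𝓛_α` is complete, every `T ∈ 𝓛_α` has upper metric mean dimension at most
`(1 - α) d`, and a generic `T ∈ 𝓛_α` has upper metric mean dimension `(1 - α) d` if and only if
`α ≤ (d - 1) / d`. For `α > (d - 1) / d` an explicit upper bound for all `T ∈ 𝓛_α` is strictly
smaller than `(1 - α) d`, so no `T ∈ 𝓛_α` attains the value. -/
theorem result {E : Type*} [NormedAddCommGroup E] [NormedSpace ℝ E] [FiniteDimensional ℝ E]
    (hd : 2 ≤ finrank ℝ E) {M : Type*} [MetricSpace M] [CompactSpace M] [Nonempty M]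
    [ChartedSpace E M] [IsManifold 𝓘(ℝ, E) ∞ M]
    [RiemannianBundle (fun x : M => TangentSpace 𝓘(ℝ, E) x)]
    (hs : SmoothMetric E M) (hM : BilipRiem E M)
    {N : ℕ} {Φ : M → EuclideanSpace ℝ (Fin N)} (hΦ : SmoothEmb E Φ)
    {α : ℝ} (hα0 : 0 < α) (hα1 : α < 1) :
    CompleteSpace (LAlpha α Φ) ∧
    (∀ T ∈ LAlpha α Φ, upperMdim T.1 ≤ (((1 - α) * finrank ℝ E : ℝ) : EReal)) ∧
    ({T : LAlpha α Φ | upperMdim T.1.1 = (((1 - α) * finrank ℝ E : ℝ) : EReal)} ∈
      residual (LAlpha α Φ) ↔ α ≤ ((finrank ℝ E : ℝ) - 1) / finrank ℝ E) ∧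
    (((finrank ℝ E : ℝ) - 1) / finrank ℝ E < α →
      (∀ T ∈ LAlpha α Φ, upperMdim T.1 ≤ ((bigExp (finrank ℝ E) α / 2 : ℝ) : EReal)) ∧
      bigExp (finrank ℝ E) α / 2 < (1 - α) * finrank ℝ E) := by
  have hd' : (2 : ℝ) ≤ finrank ℝ E := by exact_mod_cast hd
  have hd0 : (0 : ℝ) < finrank ℝ E := by linarith
  have hloc := locEuclid hs hM
  obtain ⟨A, hA⟩ := hloc.packing
  obtain ⟨lam, r0, hlam, hr0, hllc⟩ := hloc.llc
  obtain ⟨K, L, hK0, hK, hL⟩ := emb_global hs hM hΦ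
  have hcomplete := complete_holderMaps (α := α) hK0 hK hL
  refine ⟨?_, fun T _ => ?_, ⟨fun h => ?_, fun h => ?_⟩, fun h => ⟨fun T hT => ?_, ?_⟩⟩
  · apply IsComplete.completeSpace_coe
    exact isClosed_closure.isComplete
  · obtain ⟨C, hC⟩ := T.2
    exact Pos.I_Up M (finrank ℝ E) A α C hA hα0 hα1 T.1 hC
  · by_contra hcon
    push Not at hcon
    exact not_residual (by omega) hA hlam hr0 hllc hα0 hcon hα1 hK0 hK hL h
  · rw [le_div_iff₀ hd0] at h
    exact Pos.all_res M (finrank ℝ E) hd (Pos.I_Mod M E hloc) N Φ K L α hK hL hα0 h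
  · exact mem_LAlpha_bound hA hlam hr0 hllc hα0 hα1 hK0 hK hL T hT
  · exact bigExp_lt (by omega) hα0 h hα1

end Pool.Agent.Results.MP_74738e_an.Threshold
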